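import Mathlib

/-!
The ratios `arcC(M) / |E|` of gammoids are dense in the positive reals.
-/

namespace Pool.Agent.Results.MP_1bde1f_co.DenseRatios

open Set

/-- A path of the digraph with arc set `A`: a non-empty list of pairwise distinct vertices such
that consecutive ones are joined by an arc. -/
def IsPath {V : Type} (A : Set (V × V)) (p : List V) : Prop :=
  p ≠ [] ∧ p.Nodup ∧ List.IsChain (fun u v => (u, v) ∈ A) p

/-- A routing from `X` to `T`: a family of pairwise vertex-disjoint paths, each ending in `T`, such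
that every `x ∈ X` is the start of some path of the family. -/
def IsRouting {V : Type} (A : Set (V × V)) (X T : Set V) (R : Set (List V)) : Prop :=
  (∀ p ∈ R, IsPath A p ∧ ∃ t ∈ T, p.getLast? = some t) ∧
  (∀ p ∈ R, ∀ q ∈ R, p ≠ q → List.Disjoint p q) ∧
  (∀ x ∈ X, ∃ p ∈ R, p.head? = some x)

/-- `X` is linked to `T`. -/
def Linked {V : Type} (A : Set (V × V)) (X T : Set V) : Prop := ∃ R, IsRouting A X T R

/-- The family of independent sets of `Γ(D, T, E)`, where `D` has arc set `A` and the ground set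
`E` is given by the injection `f : α → V`. -/
def Fam {α V : Type} (f : α → V) (A : Set (V × V)) (T : Set V) : Set (Set α) :=
  {X | Linked A (f '' X) T}

/-- The representation is standard: `T ⊆ E`, every `t ∈ T` is a sink and every `e ∈ E \ T` is a
source. -/
def IsStd {α V : Type} (f : α → V) (A : Set (V × V)) (T : Set V) : Prop :=
  T ⊆ range f ∧ (∀ t ∈ T, ∀ v, (t, v) ∉ A) ∧ (∀ e ∈ range f, e ∉ T → ∀ u, (u, e) ∉ A)

/-- The family `M` of subsets of `α` is (the family of independent sets of) a gammoid. -/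
def IsGammoid {α : Type} (M : Set (Set α)) : Prop :=
  ∃ (V : Type) (_ : Finite V) (f : α → V) (A : Set (V × V)) (T : Set V),
    Function.Injective f ∧ Fam f A T = M

/-- The arc-complexity: the minimum number of arcs in a standard representation. -/
noncomputable def arcC {α : Type} (M : Set (Set α)) : ℕ :=
  sInf {k | ∃ (V : Type) (_ : Finite V) (f : α → V) (A : Set (V × V)) (T : Set V),
    Function.Injective f ∧ IsStd f A T ∧ Fam f A T = M ∧ A.ncard = k}

/-- The set of all ratios `arcC(M) / |E|`. -/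
def ratios : Set ℝ :=
  {q | ∃ (α : Type) (_ : Fintype α) (_ : Nonempty α) (M : Set (Set α)),
    IsGammoid M ∧ q = (arcC M : ℝ) / (Fintype.card α : ℝ)}

/-! ### Transport of routings -/

section transport

variable {V W : Type} {A : Set (V × V)} {A' : Set (W × W)} {X T : Set V} {T' : Set W}

theorem transport_core {R : Set (List V)} (hR : IsRouting A X T R) (U : Set V)
    (hU : ∀ p ∈ R, ∀ x ∈ X, p.head? = some x → ∀ v ∈ p, v ∈ U) (φ : V → W) (hinj : InjOn φ U)
    (hA : ∀ u ∈ U, ∀ v ∈ U, (u, v) ∈ A → (φ u, φ v) ∈ A') (hT : ∀ t ∈ T, t ∈ U → φ t ∈ T') :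
    Linked A' (φ '' X) T' := by
  refine ⟨{q | ∃ p ∈ R, ∃ x ∈ X, p.head? = some x ∧ q = p.map φ}, ?_, ?_, ?_⟩
  · rintro q ⟨p, hp, x, hx, hpx, rfl⟩
    obtain ⟨⟨hne, hnd, hch⟩, t, ht, hlast⟩ := hR.1 p hp
    have hpU := hU p hp x hx hpx
    refine ⟨⟨by simpa using hne, ?_, ?_⟩, φ t, ?_, ?_⟩
    · exact hnd.map_on (fun a ha b hb h => hinj (hpU a ha) (hpU b hb) h)
    · rw [List.isChain_map]
      exact hch.imp_of_mem_imp (fun a b ha hb h => hA a (hpU a ha) b (hpU b hb) h)
    · apply hT t ht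
      exact hpU t (List.mem_of_getLast? hlast)
    · rw [List.getLast?_map, hlast]; rfl
  · rintro q ⟨p, hp, x, hx, hpx, rfl⟩ q' ⟨p', hp', x', hx', hpx', rfl⟩ hne
    have hpp : p ≠ p' := fun h => hne (by rw [h])
    have hd := hR.2.1 p hp p' hp' hpp
    intro w hw hw'
    rw [List.mem_map] at hw hw'
    obtain ⟨v, hv, rfl⟩ := hw
    obtain ⟨v', hv', h⟩ := hw'
    have : v' = v := hinj (hU p' hp' x' hx' hpx' v' hv') (hU p hp x hx hpx v hv) h
    rw [this] at hv'
    exact hd hv hv'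
  · rintro _ ⟨x, hx, rfl⟩
    obtain ⟨p, hp, hpx⟩ := hR.2.2 x hx
    refine ⟨p.map φ, ⟨p, hp, x, hx, hpx, rfl⟩, ?_⟩
    rw [List.head?_map, hpx]; rfl

/-- vertices of a path starting in a closed set -/
theorem mem_of_closed {A : Set (V × V)} {U : Set V} (hcl : ∀ u ∈ U, ∀ v, (u, v) ∈ A → v ∈ U) :
    ∀ (p : List V), List.IsChain (fun u v => (u, v) ∈ A) p → ∀ x ∈ U, p.head? = some x →
      ∀ v ∈ p, v ∈ U := by
  intro p
  induction p with
  | nil => intro _ x _ _ v hv; exact absurd hv (by simp)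
  | cons a l ih =>
    intro hch x hx hhead v hv
    simp only [List.head?_cons, Option.some.injEq] at hhead
    subst hhead
    rw [List.mem_cons] at hv
    rcases hv with rfl | hv
    · exact hx
    · cases l with
      | nil => exact absurd hv (by simp)
      | cons b l =>
        rw [List.isChain_cons_cons] at hch
        exact ih hch.2 b (hcl a hx b hch.1) rfl v hv

theorem transport (U : Set V) (φ : V → W) (hinj : InjOn φ U) (hX : X ⊆ U)
    (hA : ∀ u ∈ U, ∀ v, (u, v) ∈ A → v ∈ U ∧ (φ u, φ v) ∈ A') (hT : ∀ t ∈ T, t ∈ U → φ t ∈ T')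
    (h : Linked A X T) : Linked A' (φ '' X) T' := by
  obtain ⟨R, hR⟩ := h
  apply transport_core hR U _ φ hinj (fun u hu v _ h => (hA u hu v h).2) hT
  intro p hp x hx hpx v hv
  exact mem_of_closed (fun u hu v h => (hA u hu v h).1) p (hR.1 p hp).1.2.2 x (hX hx) hpx v hv

end transport

theorem linked_mono {V : Type} {A A' : Set (V × V)} {X X' T T' : Set V} (hA : A ⊆ A')
    (hX : X' ⊆ X) (hT : T ⊆ T') (h : Linked A X T) : Linked A' X' T' := by
  obtain ⟨R, h1, h2, h3⟩ := h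
  refine ⟨R, ?_, h2, fun x hx => h3 x (hX hx)⟩
  intro p hp
  obtain ⟨⟨a, b, c⟩, t, ht, hl⟩ := h1 p hp
  exact ⟨⟨a, b, c.imp (fun u v h => hA h)⟩, t, hT ht, hl⟩

/-! ### Adding coloops -/

section coloops

variable {α : Type} {k : ℕ}

/-- the direct sum with `k` coloops -/
def addCo (M : Set (Set α)) (k : ℕ) : Set (Set (α ⊕ Fin k)) := {X | Sum.inl ⁻¹' X ∈ M}

theorem addCo_upper {V : Type} (f : α → V) (A : Set (V × V)) (T : Set V)
    (hf : Function.Injective f) (hstd : IsStd f A T) :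
    ∃ (f' : α ⊕ Fin k → V ⊕ Fin k) (A' : Set ((V ⊕ Fin k) × (V ⊕ Fin k))) (T' : Set (V ⊕ Fin k)),
      Function.Injective f' ∧ IsStd f' A' T' ∧ Fam f' A' T' = addCo (Fam f A T) k ∧
      A'.ncard = A.ncard := by
  classical
  refine ⟨Sum.map f id, (fun a : V × V => (Sum.inl a.1, Sum.inl a.2)) '' A,
    Sum.inl '' T ∪ range Sum.inr, ?_, ⟨?_, ?_, ?_⟩, ?_, ?_⟩
  · exact hf.sumMap Function.injective_id
  · rintro _ (⟨t, ht, rfl⟩ | ⟨j, rfl⟩)
    · obtain ⟨a, rfl⟩ := hstd.1 ht
      exact ⟨Sum.inl a, rfl⟩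
    · exact ⟨Sum.inr j, rfl⟩
  · rintro _ (⟨t, ht, rfl⟩ | ⟨j, rfl⟩) v ⟨⟨a, b⟩, hab, h⟩
    · simp only [Prod.mk.injEq, Sum.inl.injEq] at h
      rw [h.1] at hab
      exact hstd.2.1 t ht _ hab
    · simp at h
  · rintro _ ⟨a | j, rfl⟩ ha u ⟨⟨x, y⟩, hxy, h⟩
    · simp only [Prod.mk.injEq, Sum.map_inl, Sum.inl.injEq] at h
      rw [h.2] at hxy
      refine hstd.2.2 (f a) ⟨a, rfl⟩ ?_ _ hxy
      intro ht
      exact ha (Or.inl ⟨f a, ht, rfl⟩)
    · exact ha (Or.inr ⟨j, rfl⟩)
  · ext X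
    show Linked _ (Sum.map f id '' X) _ ↔ Linked A (f '' (Sum.inl ⁻¹' X)) T
    constructor
    · intro h
      by_cases hV : Nonempty V
      · obtain ⟨v₀⟩ := hV
        have h1 := linked_mono (X' := Sum.inl '' (f '' (Sum.inl ⁻¹' X))) (Subset.refl _) (by
          rintro _ ⟨_, ⟨a, ha, rfl⟩, rfl⟩
          exact ⟨Sum.inl a, ha, rfl⟩) (Subset.refl _) h
        have h2 := transport (A' := A) (T' := T) (range Sum.inl)
          (Sum.elim id (fun _ => v₀)) (by
            rintro _ ⟨a, rfl⟩ _ ⟨b, rfl⟩ h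
            simpa using h) (by
            rintro _ ⟨a, -, rfl⟩
            exact ⟨a, rfl⟩) (by
            rintro _ ⟨a, rfl⟩ v ⟨⟨x, y⟩, hxy, h⟩
            simp only [Prod.mk.injEq, Sum.inl.injEq] at h
            obtain ⟨rfl, rfl⟩ := h
            exact ⟨⟨y, rfl⟩, hxy⟩) (by
            rintro t ht ⟨a, rfl⟩
            rcases ht with ⟨t, ht, h⟩ | ⟨j, h⟩
            · rw [← Sum.inl_injective h]; exact ht
            · simp at h) h1
        rw [← image_comp] at h2
        have h3 : ((Sum.elim id (fun _ => v₀) : V ⊕ Fin k → V) ∘ Sum.inl : V → V) = id := by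
          ext; simp
        rw [h3, image_id] at h2
        exact h2
      · refine ⟨∅, by simp, by simp, ?_⟩
        rintro x hx
        exact absurd ⟨x⟩ hV
    · intro h
      have h1 := transport (A' := (fun a : V × V =>
          ((Sum.inl a.1 : V ⊕ Fin k), (Sum.inl a.2 : V ⊕ Fin k))) '' A)
        (T' := Sum.inl '' T) univ (Sum.inl : V → V ⊕ Fin k) (Sum.inl_injective.injOn)
        (subset_univ _) (by
          intro u _ v huv
          exact ⟨mem_univ _, ⟨(u, v), huv, rfl⟩⟩) (by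
          intro t ht _
          exact ⟨t, ht, rfl⟩) h
      obtain ⟨R, h2, h3, h4⟩ := h1
      -- keep only the paths inside the left part
      refine ⟨{p ∈ R | ∀ v ∈ p, v ∈ range (Sum.inl : V → V ⊕ Fin k)} ∪
        {p | ∃ j : Fin k, p = [Sum.inr j]}, ?_, ?_, ?_⟩
      · rintro p (⟨hp, -⟩ | ⟨j, rfl⟩)
        · obtain ⟨hpp, t, ht, hl⟩ := h2 p hp
          exact ⟨hpp, t, Or.inl ht, hl⟩
        · exact ⟨⟨by simp, by simp, List.isChain_singleton _⟩, Sum.inr j, Or.inr ⟨j, rfl⟩, rfl⟩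
      · rintro p (⟨hp, hpl⟩ | ⟨j, rfl⟩) q (⟨hq, hql⟩ | ⟨i, rfl⟩) hne
        · exact h3 p hp q hq hne
        · intro v hv hv'
          rw [List.mem_singleton] at hv'
          subst hv'
          obtain ⟨w, hw⟩ := hpl _ hv
          simp at hw
        · intro v hv hv'
          rw [List.mem_singleton] at hv
          subst hv
          obtain ⟨w, hw⟩ := hql _ hv'
          simp at hw
        · intro v hv hv'
          rw [List.mem_singleton] at hv hv'
          subst hv
          apply hne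
          rw [hv']
      · rintro _ ⟨a | j, ha, rfl⟩
        · obtain ⟨p, hp, hpx⟩ := h4 (Sum.inl (f a)) ⟨f a, ⟨a, ha, rfl⟩, rfl⟩
          refine ⟨p, Or.inl ⟨hp, ?_⟩, hpx⟩
          refine mem_of_closed ?_ p (h2 p hp).1.2.2 (Sum.inl (f a)) ⟨f a, rfl⟩ hpx
          rintro _ ⟨u, rfl⟩ v ⟨⟨x, y⟩, hxy, h⟩
          simp only [Prod.mk.injEq] at h
          exact ⟨y, h.2⟩
        · exact ⟨[Sum.inr j], Or.inr ⟨j, rfl⟩, rfl⟩
  · rw [ncard_image_of_injective]
    rintro ⟨a, b⟩ ⟨c, d⟩ h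
    simpa using h

theorem addCo_lower (M : Set (Set α)) {V : Type} [Finite V] (f : α ⊕ Fin k → V) (A : Set (V × V))
    (T : Set V) (hf : Function.Injective f) (hstd : IsStd f A T) (hM : Fam f A T = addCo M k) :
    ∃ (f' : α → V) (A' : Set (V × V)) (T' : Set V),
      Function.Injective f' ∧ IsStd f' A' T' ∧ Fam f' A' T' = M ∧ A'.ncard ≤ A.ncard := by
  classical
  set K : Set V := {v | v ∈ T ∧ ∃ j : Fin k, f (Sum.inr j) = v} with hK
  refine ⟨fun a => f (Sum.inl a), {a | a ∈ A ∧ a.1 ∉ K ∧ a.2 ∉ K}, T \ K, ?_, ⟨?_, ?_, ?_⟩, ?_, ?_⟩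
  · intro a b h
    exact Sum.inl_injective (hf h)
  · rintro t ⟨ht, htK⟩
    obtain ⟨a | j, rfl⟩ := hstd.1 ht
    · exact ⟨a, rfl⟩
    · exact absurd ⟨ht, j, rfl⟩ htK
  · rintro t ⟨ht, -⟩ v hv
    exact hstd.2.1 t ht v hv.1
  · rintro _ ⟨a, rfl⟩ ha u hu
    refine hstd.2.2 _ ⟨Sum.inl a, rfl⟩ ?_ u hu.1
    intro ht
    apply ha
    refine ⟨ht, ?_⟩
    rintro ⟨-, j, hj⟩
    have := hf hj
    simp at this
  · ext X
    show Linked _ ((fun a => f (Sum.inl a)) '' X) _ ↔ X ∈ M
    constructor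
    · intro h
      have h1 : Linked A (f '' (Sum.inl '' X)) T := by
        rw [← image_comp]
        exact linked_mono (fun a ha => ha.1) (Subset.refl _) sdiff_subset h
      have h2 : (Sum.inl '' X : Set (α ⊕ Fin k)) ∈ addCo M k := by
        rw [← hM]; exact h1
      have h3 : Sum.inl ⁻¹' (Sum.inl '' X : Set (α ⊕ Fin k)) = X :=
        preimage_image_eq _ Sum.inl_injective
      unfold addCo at h2
      rw [mem_ofPred_eq, h3] at h2
      exact h2
    · intro h
      have h2 : (Sum.inl '' X ∪ range Sum.inr : Set (α ⊕ Fin k)) ∈ addCo M k := by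
        unfold addCo
        rw [mem_ofPred_eq]
        have h3 : Sum.inl ⁻¹' (Sum.inl '' X ∪ range Sum.inr : Set (α ⊕ Fin k)) = X := by
          rw [preimage_union, preimage_image_eq _ Sum.inl_injective]
          ext a; simp
        rw [h3]; exact h
      rw [← hM] at h2
      obtain ⟨R, hR⟩ := h2
      have hmono : IsRouting A ((fun a => f (Sum.inl a)) '' X) T R := by
        refine ⟨hR.1, hR.2.1, ?_⟩
        rintro _ ⟨a, ha, rfl⟩
        exact hR.2.2 _ ⟨Sum.inl a, Or.inl ⟨a, ha, rfl⟩, rfl⟩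
      have h4 := transport_core (A' := {a | a ∈ A ∧ a.1 ∉ K ∧ a.2 ∉ K}) (T' := T \ K) hmono Kᶜ ?_
        id (injOn_id _) ?_ ?_
      · rw [image_id] at h4
        exact h4
      · rintro p hp _ ⟨a, ha, rfl⟩ hpx v hv hvK
        obtain ⟨hvT, j, rfl⟩ := hvK
        -- the path starting at `f (inr j)`
        obtain ⟨q, hq, hqx⟩ := hR.2.2 (f (Sum.inr j)) ⟨Sum.inr j, Or.inr ⟨j, rfl⟩, rfl⟩
        have hne : p ≠ q := by
          rintro rfl
          rw [hpx] at hqx
          have := hf (Option.some.inj hqx)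
          simp at this
        exact hR.2.1 p hp q hq hne hv (List.mem_of_head? hqx)
      · intro u hu v hv huv
        exact ⟨huv, hu, hv⟩
      · intro t ht htK
        exact ⟨ht, htK⟩
  · exact ncard_le_ncard (fun a ha => ha.1) (toFinite _)

theorem arcC_addCo (M : Set (Set α)) (k : ℕ)
    (hM : ∃ (V : Type) (_ : Finite V) (f : α → V) (A : Set (V × V)) (T : Set V),
      Function.Injective f ∧ IsStd f A T ∧ Fam f A T = M) :
    arcC (addCo M k) = arcC M ∧ IsGammoid (addCo M k) := by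
  have hne : {m | ∃ (V : Type) (_ : Finite V) (f : α → V) (A : Set (V × V)) (T : Set V),
    Function.Injective f ∧ IsStd f A T ∧ Fam f A T = M ∧ A.ncard = m}.Nonempty := by
    obtain ⟨V, hV, f, A, T, h1, h2, h3⟩ := hM
    exact ⟨A.ncard, V, hV, f, A, T, h1, h2, h3, rfl⟩
  obtain ⟨V, hV, f, A, T, h1, h2, h3, h4⟩ := Nat.sInf_mem hne
  obtain ⟨f', A', T', g1, g2, g3, g4⟩ := addCo_upper (k := k) f A T h1 h2
  rw [h3] at g3
  have hne' : {m | ∃ (V : Type) (_ : Finite V) (f : α ⊕ Fin k → V) (A : Set (V × V)) (T : Set V),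
    Function.Injective f ∧ IsStd f A T ∧ Fam f A T = addCo M k ∧ A.ncard = m}.Nonempty :=
    ⟨_, _, inferInstance, f', A', T', g1, g2, g3, rfl⟩
  refine ⟨le_antisymm ?_ ?_, ⟨_, inferInstance, f', A', T', g1, g3⟩⟩
  · apply Nat.sInf_le
    refine ⟨_, inferInstance, f', A', T', g1, g2, g3, ?_⟩
    rw [g4]; exact h4
  · obtain ⟨V₁, hV₁, f₁, A₁, T₁, p1, p2, p3, p4⟩ := Nat.sInf_mem hne'
    obtain ⟨f₂, A₂, T₂, q1, q2, q3, q4⟩ := addCo_lower M f₁ A₁ T₁ p1 p2 p3
    have h5 : arcC M ≤ A₂.ncard := Nat.sInf_le ⟨V₁, hV₁, f₂, A₂, T₂, q1, q2, q3, rfl⟩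
    exact h5.trans (q4.trans p4.le)

end coloops

/-! ### Counting -/

section count

variable {α : Type}

theorem normalise {V : Type} [Finite V] (f : α → V) (A : Set (V × V)) (T : Set V)
    (hf : Function.Injective f) (hT : T ⊆ range f) (m : ℕ) (hA : A.ncard ≤ m) :
    ∃ (A' : Set ((α ⊕ Fin (2 * m + 1)) × (α ⊕ Fin (2 * m + 1)))) (T₀ : Set α),
      A'.Finite ∧ A'.ncard ≤ m ∧ Fam (Sum.inl : α → α ⊕ Fin (2 * m + 1)) A' (Sum.inl '' T₀) =
        Fam f A T := by
  classical
  have := Fintype.ofFinite V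
  set P : Set V := {v | v ∉ range f ∧ ∃ a ∈ A, a.1 = v ∨ a.2 = v} with hP
  have hPcard : P.ncard ≤ 2 * m := by
    have h1 : P ⊆ (Prod.fst '' A) ∪ (Prod.snd '' A) := by
      rintro v ⟨-, a, ha, h | h⟩
      · left; exact ⟨a, ha, h⟩
      · right; exact ⟨a, ha, h⟩
    have h2 := ncard_le_ncard h1 (toFinite _)
    have h3 := ncard_union_le (Prod.fst '' A) (Prod.snd '' A)
    have h4 := ncard_image_le (f := Prod.fst) (toFinite A)
    have h5 := ncard_image_le (f := Prod.snd) (toFinite A)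
    omega
  obtain ⟨e⟩ : Nonempty (P ↪ Fin (2 * m + 1)) := by
    apply Function.Embedding.nonempty_of_card_le
    rw [Fintype.card_fin, ← Nat.card_eq_fintype_card]
    show P.ncard ≤ 2 * m + 1
    omega
  let g : V → α ⊕ Fin (2 * m + 1) := fun v =>
    if h : ∃ a, f a = v then Sum.inl h.choose
    else if h' : v ∈ P then Sum.inr (e ⟨v, h'⟩) else Sum.inr (Fin.last _)
  have hgf : ∀ a, g (f a) = Sum.inl a := by
    intro a
    have h : ∃ b, f b = f a := ⟨a, rfl⟩
    simp only [g, dif_pos h]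
    rw [hf h.choose_spec]
  have hgP : ∀ v (hv : v ∈ P), g v = Sum.inr (e ⟨v, hv⟩) := by
    intro v hv
    have h : ¬ ∃ b, f b = v := hv.1
    simp only [g, dif_neg h, dif_pos hv]
  set U : Set V := range f ∪ P with hU
  have hinj : InjOn g U := by
    rintro u (⟨a, rfl⟩ | hu) v (⟨b, rfl⟩ | hv) h
    · rw [hgf, hgf] at h
      rw [Sum.inl_injective h]
    · rw [hgf, hgP v hv] at h; simp at h
    · rw [hgf, hgP u hu] at h; simp at h
    · rw [hgP u hu, hgP v hv] at h
      have := e.injective (Sum.inr_injective h)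
      exact congrArg Subtype.val this
  have hAU : ∀ u v, (u, v) ∈ A → u ∈ U ∧ v ∈ U := by
    intro u v huv
    constructor
    · by_cases h : u ∈ range f
      · left; exact h
      · right; exact ⟨h, (u, v), huv, Or.inl rfl⟩
    · by_cases h : v ∈ range f
      · left; exact h
      · right; exact ⟨h, (u, v), huv, Or.inr rfl⟩
  refine ⟨(fun a : V × V => (g a.1, g a.2)) '' A, f ⁻¹' T, (toFinite A).image _,
    (ncard_image_le (toFinite A)).trans hA, ?_⟩
  ext X
  show Linked _ (Sum.inl '' X) _ ↔ Linked A (f '' X) T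
  constructor
  · intro h
    by_cases hV : Nonempty V
    · have hinv : ∀ u ∈ U, Function.invFunOn g U (g u) = u := fun u hu =>
        hinj.leftInvOn_invFunOn hu
      have h1 := transport (A' := A) (T' := T) (g '' U) (Function.invFunOn g U) (by
          rintro _ ⟨u, hu, rfl⟩ _ ⟨v, hv, rfl⟩ h
          rw [hinv u hu, hinv v hv] at h
          rw [h]) (by
          rintro _ ⟨a, -, rfl⟩
          exact ⟨f a, Or.inl ⟨a, rfl⟩, hgf a⟩) (by
          rintro _ ⟨w, hw, rfl⟩ v' ⟨⟨x, y⟩, hxy, h⟩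
          simp only [Prod.mk.injEq] at h
          obtain ⟨hx, hy⟩ := hAU x y hxy
          obtain ⟨h2, h3⟩ := h
          rw [← h2, ← h3, hinv x hx, hinv y hy]
          exact ⟨⟨y, hy, rfl⟩, hxy⟩) (by
          rintro _ ⟨a, ha, rfl⟩ _
          rw [← hgf a, hinv (f a) (Or.inl ⟨a, rfl⟩)]
          exact ha) h
      have h4 : Function.invFunOn g U '' (Sum.inl '' X) = f '' X := by
        ext v
        constructor
        · rintro ⟨_, ⟨a, ha, rfl⟩, rfl⟩
          rw [← hgf a, hinv (f a) (Or.inl ⟨a, rfl⟩)]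
          exact ⟨a, ha, rfl⟩
        · rintro ⟨a, ha, rfl⟩
          refine ⟨Sum.inl a, ⟨a, ha, rfl⟩, ?_⟩
          rw [← hgf a, hinv (f a) (Or.inl ⟨a, rfl⟩)]
      rw [h4] at h1
      exact h1
    · refine ⟨∅, by simp, by simp, ?_⟩
      rintro x hx
      exact absurd ⟨x⟩ hV
  · intro h
    have h1 := transport (A' := (fun a : V × V => (g a.1, g a.2)) '' A)
      (T' := Sum.inl '' (f ⁻¹' T)) U g hinj (by
        rintro _ ⟨a, -, rfl⟩
        exact Or.inl ⟨a, rfl⟩) (by
        intro u _ v huv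
        exact ⟨(hAU u v huv).2, ⟨(u, v), huv, rfl⟩⟩) (by
        intro t ht _
        obtain ⟨a, rfl⟩ := hT ht
        exact ⟨a, ht, (hgf a).symm⟩) h
    have h4 : g '' (f '' X) = Sum.inl '' X := by
      rw [← image_comp]
      apply image_congr
      intro a _
      exact hgf a
    rw [h4] at h1
    exact h1

/-- decoding of a finite code -/
def decode (m : ℕ) (c : Set α × (Fin m → Option ((α ⊕ Fin (2 * m + 1)) × (α ⊕ Fin (2 * m + 1))))) :
    Set (Set α) :=
  Fam (Sum.inl : α → α ⊕ Fin (2 * m + 1)) {w | ∃ i, c.2 i = some w} (Sum.inl '' c.1)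

theorem exists_code {V : Type} [Finite V] (f : α → V) (A : Set (V × V)) (T : Set V)
    (hf : Function.Injective f) (hT : T ⊆ range f) (m : ℕ) (hA : A.ncard ≤ m) :
    ∃ c, decode m c = Fam f A T := by
  classical
  obtain ⟨A', T₀, hfin, hcard, h⟩ := normalise f A T hf hT m hA
  have := hfin.fintype
  obtain ⟨e⟩ : Nonempty (A' ↪ Fin m) := by
    apply Function.Embedding.nonempty_of_card_le
    rw [Fintype.card_fin, ← Nat.card_eq_fintype_card]
    exact hcard
  refine ⟨(T₀, fun i => if h : ∃ a, e a = i then some (h.choose : _) else none), ?_⟩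
  rw [← h]
  unfold decode
  congr 1
  ext w
  simp only [mem_ofPred_eq]
  constructor
  · rintro ⟨i, hi⟩
    by_cases hex : ∃ a, e a = i
    · rw [dif_pos hex] at hi
      rw [← Option.some.inj hi]
      exact hex.choose.2
    · rw [dif_neg hex] at hi
      simp at hi
  · intro hw
    have hex : ∃ a, e a = e ⟨w, hw⟩ := ⟨_, rfl⟩
    refine ⟨e ⟨w, hw⟩, ?_⟩
    rw [dif_pos hex, e.injective hex.choose_spec]

/-- the family of a bipartite graph -/
def famN (r : ℕ) (N : Set (Fin r × Fin r)) : Set (Set (Fin r ⊕ Fin r)) :=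
  Fam id {w | ∃ i j, (i, j) ∈ N ∧ w = (Sum.inl i, Sum.inr j)} (range Sum.inr)

theorem famN_std (r : ℕ) (N : Set (Fin r × Fin r)) :
    IsStd (id : Fin r ⊕ Fin r → Fin r ⊕ Fin r) {w | ∃ i j, (i, j) ∈ N ∧ w = (Sum.inl i, Sum.inr j)}
      (range Sum.inr) := by
  refine ⟨fun x _ => ⟨x, rfl⟩, ?_, ?_⟩
  · rintro _ ⟨j, rfl⟩ v ⟨i, j', -, h⟩
    simp at h
  · rintro e - he u ⟨i, j, -, h⟩
    simp only [Prod.mk.injEq] at h
    exact he ⟨j, h.2.symm⟩

theorem famN_mem (r : ℕ) (N : Set (Fin r × Fin r)) (i j : Fin r) :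
    ({Sum.inl i} ∪ {w | ∃ j', j' ≠ j ∧ w = Sum.inr j'} : Set (Fin r ⊕ Fin r)) ∈ famN r N ↔
      (i, j) ∈ N := by
  unfold famN Fam
  rw [mem_ofPred_eq, image_id]
  constructor
  · rintro ⟨R, h1, h2, h3⟩
    obtain ⟨p, hp, hpx⟩ := h3 (Sum.inl i) (Or.inl rfl)
    obtain ⟨⟨hne, hnd, hch⟩, t, ⟨a, rfl⟩, hlast⟩ := h1 p hp
    -- the path is `[inl i, inr b, ...]`
    cases p with
    | nil => exact absurd rfl hne
    | cons x l =>
      simp only [List.head?_cons, Option.some.injEq] at hpx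
      subst hpx
      cases l with
      | nil => simp at hlast
      | cons y l =>
        rw [List.isChain_cons_cons] at hch
        obtain ⟨⟨i', j', hN, hij⟩, -⟩ := hch
        simp only [Prod.mk.injEq, Sum.inl.injEq] at hij
        obtain ⟨rfl, rfl⟩ := hij
        by_cases hj : j' = j
        · rw [← hj]; exact hN
        · exfalso
          obtain ⟨q, hq, hqx⟩ := h3 (Sum.inr j') (Or.inr ⟨j', hj, rfl⟩)
          have hne' : (Sum.inl i :: Sum.inr j' :: l) ≠ q := by
            rintro rfl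
            simp at hqx
          exact h2 _ hp q hq hne' (by simp) (List.mem_of_head? hqx)
  · intro hN
    refine ⟨{[Sum.inl i, Sum.inr j]} ∪ {p | ∃ j', j' ≠ j ∧ p = [Sum.inr j']}, ?_, ?_, ?_⟩
    · rintro p (rfl | ⟨j', -, rfl⟩)
      · exact ⟨⟨by simp, by simp, by
          rw [List.isChain_cons_cons]
          exact ⟨⟨i, j, hN, rfl⟩, List.isChain_singleton _⟩⟩, Sum.inr j, ⟨j, rfl⟩, rfl⟩
      · exact ⟨⟨by simp, by simp, List.isChain_singleton _⟩, Sum.inr j', ⟨j', rfl⟩, rfl⟩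
    · rintro p (rfl | ⟨j', hj', rfl⟩) q (rfl | ⟨j'', hj'', rfl⟩) hne
      · exact absurd rfl hne
      · intro v hv hv'
        simp only [List.mem_cons, List.not_mem_nil, or_false] at hv hv'
        subst hv'
        rcases hv with hv | hv
        · simp at hv
        · exact hj'' (Sum.inr_injective hv)
      · intro v hv hv'
        simp only [List.mem_cons, List.not_mem_nil, or_false] at hv hv'
        subst hv
        rcases hv' with hv | hv
        · simp at hv
        · exact hj' (Sum.inr_injective hv)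
      · intro v hv hv'
        simp only [List.mem_cons, List.not_mem_nil, or_false] at hv hv'
        apply hne
        rw [← hv, hv']
    · rintro x (rfl | ⟨j', hj', rfl⟩)
      · exact ⟨_, Or.inl rfl, rfl⟩
      · exact ⟨_, Or.inr ⟨j', hj', rfl⟩, rfl⟩

theorem famN_inj (r : ℕ) : Function.Injective (famN r) := by
  intro N N' h
  ext ⟨i, j⟩
  rw [← famN_mem r N i j, ← famN_mem r N' i j, h]

/-- Counting bound. -/
theorem count_bound (r m : ℕ) (h : ∀ N, arcC (famN r N) ≤ m) :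
    2 ^ (r * r) ≤ 2 ^ (r + r) * ((r + r + (2 * m + 1)) * (r + r + (2 * m + 1)) + 1) ^ m := by
  classical
  have hcode : ∀ N, ∃ c, decode m c = famN r N := by
    intro N
    have hne : {k | ∃ (V : Type) (_ : Finite V) (f : Fin r ⊕ Fin r → V) (A : Set (V × V))
      (T : Set V), Function.Injective f ∧ IsStd f A T ∧ Fam f A T = famN r N ∧
        A.ncard = k}.Nonempty :=
      ⟨_, _, inferInstance, id, _, _, Function.injective_id, famN_std r N, rfl, rfl⟩
    obtain ⟨V, hV, f, A, T, h1, h2, h3, h4⟩ := Nat.sInf_mem hne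
    obtain ⟨c, hc⟩ := exists_code f A T h1 h2.1 m (by rw [h4]; exact h N)
    exact ⟨c, hc.trans h3⟩
  choose c hc using hcode
  have hinj : Function.Injective c := by
    intro N N' h
    apply famN_inj r
    rw [← hc N, ← hc N', h]
  have h1 := Fintype.card_le_of_injective c hinj
  simp only [Fintype.card_set, Fintype.card_prod, Fintype.card_sum, Fintype.card_fin,
    Fintype.card_fun, Fintype.card_option] at h1
  exact h1

end count

theorem numeric (C n₀ : ℕ) : ∃ r, n₀ ≤ r ∧ 1 ≤ r ∧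
    2 ^ (r + r) * ((r + r + (2 * (2 * C * r) + 1)) * (r + r + (2 * (2 * C * r) + 1)) + 1) ^
      (2 * C * r) < 2 ^ (r * r) := by
  have h := tendsto_pow_const_div_const_pow_of_one_lt (4 * C) (show (1 : ℝ) < 2 by norm_num)
  have hpos : (0 : ℝ) < 1 / (4 * ((4 * C + 4 : ℕ) : ℝ) ^ (4 * C)) := by positivity
  have h2 := h.eventually (gt_mem_nhds hpos)
  obtain ⟨r, hr, hr1, hr2⟩ := (h2.and ((Filter.eventually_ge_atTop n₀).and
    (Filter.eventually_ge_atTop 1))).exists
  refine ⟨r, hr1, hr2, ?_⟩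
  have h3 : 4 * ((4 * C + 4) * r) ^ (4 * C) < 2 ^ r := by
    have h4 : (0 : ℝ) < 2 ^ r := by positivity
    have h5 : (0 : ℝ) < 4 * ((4 * C + 4 : ℕ) : ℝ) ^ (4 * C) := by positivity
    rw [div_lt_div_iff₀ h4 h5] at hr
    have h6 : (4 : ℝ) * (((4 * C + 4 : ℕ) : ℝ) * r) ^ (4 * C) < 2 ^ r := by
      rw [mul_pow]
      linarith
    exact_mod_cast h6
  set b := (4 * C + 4) * r with hb
  have h7 : (r + r + (2 * (2 * C * r) + 1)) * (r + r + (2 * (2 * C * r) + 1)) + 1 ≤ b ^ 2 := by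
    have h8 : r + r + (2 * (2 * C * r) + 1) + r ≤ b := by
      rw [hb]; nlinarith
    set a := r + r + (2 * (2 * C * r) + 1) with ha
    calc a * a + 1 ≤ (a + r) * (a + r) := by
          have h10 : 1 ≤ r * r := Nat.mul_le_mul hr2 hr2
          have h11 : (a + r) * (a + r) = a * a + r * r + (a * r + r * a) := by ring
          rw [h11]
          omega
      _ ≤ b * b := Nat.mul_le_mul h8 h8
      _ = b ^ 2 := by ring
  clear_value b
  calc 2 ^ (r + r) * ((r + r + (2 * (2 * C * r) + 1)) * (r + r + (2 * (2 * C * r) + 1)) + 1) ^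
      (2 * C * r) ≤ 2 ^ (r + r) * (b ^ 2) ^ (2 * C * r) :=
        Nat.mul_le_mul_left _ (Nat.pow_le_pow_left h7 _)
    _ = (4 * b ^ (4 * C)) ^ r := by
        have h9 : (b ^ 2) ^ (2 * C * r) = (b ^ (4 * C)) ^ r := by
          rw [← pow_mul, ← pow_mul]
          congr 1
          ring
        have h12 : 2 ^ (r + r) = 4 ^ r := by
          rw [← two_mul, pow_mul]; norm_num
        rw [mul_pow, h9, h12]
    _ < (2 ^ r) ^ r := Nat.pow_lt_pow_left h3 (by omega)
    _ = 2 ^ (r * r) := by rw [← pow_mul]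

/-- The set `S` of all ratios `arcC(M) / |E|` of gammoids is dense in the positive reals. -/
theorem result (a b : ℝ) (ha : 0 < a) (hab : a < b) : ∃ q ∈ ratios, a < q ∧ q < b := by
  classical
  obtain ⟨C, hC⟩ := exists_nat_ge b
  obtain ⟨n₀, hn₀⟩ := exists_nat_gt (b / (b - a))
  obtain ⟨r, hr0, hr1, hlt⟩ := numeric C n₀
  -- a gammoid of large arc-complexity
  obtain ⟨N, hN⟩ : ∃ N, 2 * C * r < arcC (famN r N) := by
    by_contra hcon
    push Not at hcon
    have := count_bound r (2 * C * r) hcon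
    omega
  set m := arcC (famN r N) with hm
  have hb0 : 0 < b := ha.trans hab
  have hba : 0 < b - a := by linarith
  have hr0' : b / (b - a) < r := lt_of_lt_of_le hn₀ (by exact_mod_cast hr0)
  have hrpos : (0 : ℝ) < r := by exact_mod_cast (show 0 < r by omega)
  have hmb : b * (2 * r) ≤ m := by
    have h1 : ((2 * C * r : ℕ) : ℝ) ≤ m := by exact_mod_cast hN.le
    push_cast at h1
    nlinarith
  -- the number of coloops
  have hex : ∃ k : ℕ, (m : ℝ) < b * (2 * r + k) := by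
    obtain ⟨k, hk⟩ := exists_nat_gt ((m : ℝ) / b)
    refine ⟨k, ?_⟩
    rw [div_lt_iff₀ hb0] at hk
    nlinarith
  have hk := Nat.find_spec hex
  set k := Nat.find hex with hkdef
  have hk0 : k ≠ 0 := by
    intro h0
    rw [h0] at hk
    push_cast at hk
    linarith
  have hk1 : b * (2 * r + (k - 1 : ℕ)) ≤ m := by
    have := Nat.find_min hex (m := k - 1) (by omega)
    exact not_lt.1 this
  obtain ⟨hC1, hC2⟩ := arcC_addCo (famN r N) k
    ⟨_, inferInstance, id, _, _, Function.injective_id, famN_std r N, rfl⟩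
  have hcard : (Fintype.card ((Fin r ⊕ Fin r) ⊕ Fin k) : ℝ) = 2 * r + k := by
    simp only [Fintype.card_sum, Fintype.card_fin]
    push_cast
    ring
  have hNe : Nonempty ((Fin r ⊕ Fin r) ⊕ Fin k) := ⟨Sum.inl (Sum.inl ⟨0, by omega⟩)⟩
  refine ⟨_, ⟨(Fin r ⊕ Fin r) ⊕ Fin k, inferInstance, hNe, addCo (famN r N) k, hC2, rfl⟩, ?_, ?_⟩
  · rw [hC1, hcard, ← hm]
    have hk2 : ((k - 1 : ℕ) : ℝ) = (k : ℝ) - 1 := by
      rw [Nat.cast_sub (by omega)]; simp
    rw [hk2] at hk1
    have hkpos : (0 : ℝ) < 2 * r + k := by positivity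
    rw [lt_div_iff₀ hkpos]
    rw [div_lt_iff₀ hba] at hr0'
    have hk3 : (0 : ℝ) ≤ k := by positivity
    nlinarith
  · rw [hC1, hcard, ← hm]
    have hkpos : (0 : ℝ) < 2 * r + k := by positivity
    rw [div_lt_iff₀ hkpos]
    exact hk

end Pool.Agent.Results.MP_1bde1f_co.DenseRatios
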